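import Mathlib
import Pool.Agent.V11182.FPPChain

/-!
# The smallest number of members with the FPP in a maximal chain of order relations on `[n]`
-/

namespace Pool.Agent.Results.MP_eb30e1_co.MinFPP

open Finset Pool.Agent.V11182.FPPChain

/-- A maximal chain of order relations on `[n]`: it starts at the discrete order and has
`n choose 2` steps, each of which adds exactly one pair. -/
def IsMaxChainOfOrders (n : ℕ) (c : Fin (n.choose 2 + 1) → Finset (Fin n × Fin n)) : Prop :=
  (∀ i, IsOrderRel (c i)) ∧ c 0 = discr n ∧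
    ∀ i : Fin (n.choose 2), c i.castSucc ⊆ c i.succ ∧ (c i.succ).card = (c i.castSucc).card + 1

open Classical in
/-- the number of members with the FPP -/
noncomputable def numFPP (n : ℕ) (c : Fin (n.choose 2 + 1) → Finset (Fin n × Fin n)) : ℕ :=
  (univ.filter (fun i => FPP (c i))).card

lemma two_choose (n : ℕ) : 2 * n.choose 2 = n * (n - 1) := by
  have := Nat.choose_two_right n
  have h2 := Nat.even_mul_pred_self n
  rw [this]
  exact Nat.two_mul_div_two_of_even h2

lemma two_choose' (n : ℕ) : 2 * n.choose 2 + n = n * n := by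
  rw [two_choose]
  cases n with
  | zero => rfl
  | succ k => simp only [Nat.add_sub_cancel]; ring

section lower

variable {n : ℕ} {c : Fin (n.choose 2 + 1) → Finset (Fin n × Fin n)}

lemma card_c (hc : IsMaxChainOfOrders n c) : ∀ i : Fin (n.choose 2 + 1), (c i).card = n + i := by
  intro i
  induction i using Fin.induction with
  | zero => rw [hc.2.1, card_discr]; simp
  | succ i ih =>
    rw [(hc.2.2 i).2, ih]
    simp
    omega

lemma fpp_of_top (hc : IsMaxChainOfOrders n c) (i : Fin (n.choose 2 + 1))
    (hi : 2 * n.choose 2 < 2 * (i : ℕ) + n) : FPP (c i) := by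
  by_contra h
  obtain ⟨f, hf, hff⟩ := not_FPP h
  have h1 := (count_bound (hc.1 i) hf hff).1
  have h2 := card_sym (hc.1 i)
  rw [card_c hc i] at h2
  have h3 := two_choose' n
  omega

lemma lower_odd (hc : IsMaxChainOfOrders n c) : (n + 1) / 2 ≤ numFPP n c := by
  classical
  by_cases hn : n = 0
  · subst hn; simp
  have hN : (n + 1) / 2 ≤ n.choose 2 + 1 := by
    have h3 := two_choose' n
    have : n * n + 2 ≥ 2 * n + 1 := by nlinarith [Nat.pos_of_ne_zero hn]
    omega
  have hinj : Function.Injective (fun j : Fin ((n + 1) / 2) =>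
      (⟨n.choose 2 - j, by omega⟩ : Fin (n.choose 2 + 1))) := by
    intro a b hab
    rw [Fin.mk.injEq] at hab
    apply Fin.ext
    have := a.2
    have := b.2
    omega
  have h1 : (univ.image (fun j : Fin ((n + 1) / 2) =>
      (⟨n.choose 2 - j, by omega⟩ : Fin (n.choose 2 + 1)))).card = (n + 1) / 2 := by
    rw [card_image_of_injective _ hinj, card_univ, Fintype.card_fin]
  rw [← h1, numFPP]
  apply card_le_card
  intro i hi
  rw [mem_image] at hi
  obtain ⟨j, _, rfl⟩ := hi
  rw [mem_filter]
  refine ⟨mem_univ _, ?_⟩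
  apply fpp_of_top hc
  have := j.2
  simp only
  omega

lemma lower_even (hc : IsMaxChainOfOrders n c) (hn : 4 ≤ n) (he : n % 2 = 0) :
    n / 2 + 1 ≤ numFPP n c := by
  classical
  have h3 := two_choose' n
  have hN : n / 2 + 1 ≤ n.choose 2 := by
    have : n * n ≥ 4 * n := Nat.mul_le_mul_right n hn
    omega
  -- the two critical members
  obtain ⟨i, hi⟩ : ∃ i : Fin (n.choose 2), (i : ℕ) + 1 + n / 2 = n.choose 2 :=
    ⟨⟨n.choose 2 - n / 2 - 1, by omega⟩, by simp only; omega⟩
  have hstep := hc.2.2 i
  have hlev : (sym (c i.succ)).card + n = n * n := by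
    have h2 := card_sym (hc.1 i.succ)
    rw [card_c hc i.succ, Fin.val_succ] at h2
    omega
  obtain ⟨k, hkF, hk⟩ : ∃ k : Fin (n.choose 2 + 1), FPP (c k) ∧ (k : ℕ) + n / 2 ≤ n.choose 2 := by
    rcases two_consecutive (hc.1 i.succ) (hc.1 i.castSucc) hstep.1 hstep.2 hlev with h | h
    · exact ⟨i.succ, h, by rw [Fin.val_succ]; omega⟩
    · exact ⟨i.castSucc, h, by rw [Fin.val_castSucc]; omega⟩
  have hinj : Function.Injective (fun j : Fin (n / 2) =>
      (⟨n.choose 2 - j, by omega⟩ : Fin (n.choose 2 + 1))) := by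
    intro a b hab
    rw [Fin.mk.injEq] at hab
    apply Fin.ext
    have := a.2
    have := b.2
    omega
  have hk' : k ∉ univ.image (fun j : Fin (n / 2) =>
      (⟨n.choose 2 - j, by omega⟩ : Fin (n.choose 2 + 1))) := by
    rw [mem_image]
    rintro ⟨j, _, hj⟩
    rw [← hj] at hk
    have := j.2
    simp only at hk
    omega
  have h1 : (insert k (univ.image (fun j : Fin (n / 2) =>
      (⟨n.choose 2 - j, by omega⟩ : Fin (n.choose 2 + 1))))).card = n / 2 + 1 := by
    rw [card_insert_of_notMem hk', card_image_of_injective _ hinj, card_univ, Fintype.card_fin]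
  rw [← h1, numFPP]
  apply card_le_card
  intro i hi
  rw [mem_filter]
  refine ⟨mem_univ _, ?_⟩
  rcases mem_insert.mp hi with rfl | hi
  · exact hkF
  · rw [mem_image] at hi
    obtain ⟨j, _, rfl⟩ := hi
    apply fpp_of_top hc
    have := j.2
    simp only
    omega

end lower

/-! ### the construction -/

section upper

variable (k t : ℕ)

/-- level of a point; the points are `0, …, 2k-1` (pairs), `2k, …, 2k+t-1` (top block),
and `2k+t` (the special point) -/
def lev (x : ℕ) : ℕ := min (x / 2) k

/-- strict relation of the three target orders -/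
def r1 (x y : ℕ) : Prop := x < 2 * k + t ∧ y < 2 * k + t ∧ lev k x < lev k y
def r2 (x y : ℕ) : Prop := x < 2 * k + t ∧ lev k x < lev k y
def r3 (x y : ℕ) : Prop :=
  x < 2 * k + t ∧ (lev k x < lev k y ∨ (y < 2 * k + t ∧ 2 * k ≤ x ∧ x < y))

instance : DecidableRel (r1 k t) := fun x y => by unfold r1; infer_instance
instance : DecidableRel (r2 k t) := fun x y => by unfold r2; infer_instance
instance : DecidableRel (r3 k t) := fun x y => by unfold r3; infer_instance

/-- the order relation on `Fin n` given by a strict relation -/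
def mk (n : ℕ) (r : ℕ → ℕ → Prop) [DecidableRel r] : Finset (Fin n × Fin n) :=
  univ.filter (fun p => p.1 = p.2 ∨ r p.1 p.2)

variable {k t}

lemma mem_mk {n : ℕ} {r : ℕ → ℕ → Prop} [DecidableRel r] {x y : Fin n} :
    (x, y) ∈ mk n r ↔ x = y ∨ r x y := by simp [mk]

lemma mk_order {n : ℕ} {r : ℕ → ℕ → Prop} [DecidableRel r] (h1 : ∀ x y, r x y → x < y)
    (h2 : ∀ x y z, r x y → r y z → r x z) : IsOrderRel (mk n r) := by
  refine ⟨fun x => mem_mk.mpr (Or.inl rfl), fun x y ha hb => ?_, fun x y z ha hb => ?_⟩
  · rw [mem_mk] at ha hb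
    rcases ha with h | h
    · exact h
    · rcases hb with h' | h'
      · exact h'.symm
      · have := h1 _ _ h
        have := h1 _ _ h'
        omega
  · rw [mem_mk] at *
    rcases ha with rfl | h
    · exact hb
    · rcases hb with rfl | h'
      · exact Or.inr h
      · exact Or.inr (h2 _ _ _ h h')

lemma lev_lt {x y : ℕ} (h : lev k x < lev k y) : x < y := by
  unfold lev at h
  omega

lemma order1 (n : ℕ) : IsOrderRel (mk n (r1 k t)) :=
  mk_order (fun _ _ h => lev_lt h.2.2) (fun _ _ _ h h' => ⟨h.1, h'.2.1, h.2.2.trans h'.2.2⟩)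

lemma order2 (n : ℕ) : IsOrderRel (mk n (r2 k t)) :=
  mk_order (fun _ _ h => lev_lt h.2) (fun _ _ _ h h' => ⟨h.1, h.2.trans h'.2⟩)

lemma lev_top {x : ℕ} (h : 2 * k ≤ x) : lev k x = k := by unfold lev; omega

lemma order3 (n : ℕ) : IsOrderRel (mk n (r3 k t)) := by
  apply mk_order
  · intro x y h
    rcases h.2 with h' | h'
    · exact lev_lt h'
    · exact h'.2.2
  · rintro x y z ⟨h1, h2⟩ ⟨h3, h4⟩
    refine ⟨h1, ?_⟩
    rcases h2 with h | h <;> rcases h4 with h' | h'
    · exact Or.inl (h.trans h')
    · left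
      rw [lev_top (by omega : 2 * k ≤ z)]
      rw [lev_top (by omega : 2 * k ≤ y)] at h
      exact h
    · exfalso
      rw [lev_top (by omega : 2 * k ≤ y)] at h'
      unfold lev at h'
      omega
    · exact Or.inr ⟨h'.1, h.2.1, by omega⟩

lemma sub12 (n : ℕ) : mk n (r1 k t) ⊆ mk n (r2 k t) := by
  rintro ⟨x, y⟩ h
  rw [mem_mk] at *
  exact h.imp id (fun h => ⟨h.1, h.2.2⟩)

lemma sub23 (n : ℕ) : mk n (r2 k t) ⊆ mk n (r3 k t) := by
  rintro ⟨x, y⟩ h
  rw [mem_mk] at *
  exact h.imp id (fun h => ⟨h.1, Or.inl h.2⟩)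

lemma discr_sub {n : ℕ} {R : Finset (Fin n × Fin n)} (hR : IsOrderRel R) : discr n ⊆ R := by
  rintro ⟨x, y⟩ h
  rw [mem_discr] at h
  simp only at h
  subst h
  exact hR.refl x

/-- the special point -/
def bp (k t : ℕ) : Fin (2 * k + t + 1) := ⟨2 * k + t, by omega⟩

/-- first point of the top block -/
def tp (k t : ℕ) (_ : 2 ≤ t) : Fin (2 * k + t + 1) := ⟨2 * k, by omega⟩

/-- the swap of the pairs and the rotation of the top block -/
def sw (k t : ℕ) (ht : 2 ≤ t) (x : Fin (2 * k + t + 1)) : Fin (2 * k + t + 1) :=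
  if h1 : (x : ℕ) < 2 * k then
    (if (x : ℕ) % 2 = 0 then ⟨x + 1, by omega⟩ else ⟨x - 1, by omega⟩)
  else if h2 : (x : ℕ) + 1 < 2 * k + t then ⟨x + 1, by omega⟩ else tp k t ht

lemma sw_val (ht : 2 ≤ t) (x : Fin (2 * k + t + 1)) : ((sw k t ht x : Fin _) : ℕ) =
    if (x : ℕ) < 2 * k then (if (x : ℕ) % 2 = 0 then (x : ℕ) + 1 else (x : ℕ) - 1)
    else if (x : ℕ) + 1 < 2 * k + t then (x : ℕ) + 1 else 2 * k := by
  unfold sw tp
  split_ifs <;> rfl

lemma sw_ne (ht : 2 ≤ t) (x : Fin (2 * k + t + 1)) (hx : (x : ℕ) < 2 * k + t) :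
    sw k t ht x ≠ x := by
  intro h
  have h1 := sw_val ht x
  rw [h] at h1
  split_ifs at h1 <;> omega

lemma sw_lt (ht : 2 ≤ t) (x : Fin (2 * k + t + 1)) :
    ((sw k t ht x : Fin _) : ℕ) < 2 * k + t := by
  rw [sw_val]
  split_ifs <;> omega

lemma sw_lev (ht : 2 ≤ t) (x : Fin (2 * k + t + 1)) : lev k (sw k t ht x) = lev k x := by
  rw [sw_val]
  unfold lev
  split_ifs <;> omega

lemma noFPP1 {R : Finset (Fin (2 * k + t + 1) × Fin (2 * k + t + 1))} (ht : 2 ≤ t)
    (hR : IsOrderRel R) (hsub : R ⊆ mk _ (r1 k t)) : ¬ FPP R := by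
  intro h
  obtain ⟨x, hx⟩ := h (fun x => if x = bp k t then tp k t ht else bp k t) (by
    intro x y hxy
    have h1 := hsub hxy
    rw [mem_mk] at h1
    rcases h1 with rfl | h1
    · exact hR.refl _
    · have h2 : x ≠ bp k t := by
        rintro rfl
        exact absurd h1.1 (lt_irrefl _)
      have h3 : y ≠ bp k t := by
        rintro rfl
        exact absurd h1.2.1 (lt_irrefl _)
      rw [if_neg h2, if_neg h3]
      exact hR.refl _)
  have hne : tp k t ht ≠ bp k t := by
    intro h
    have := congrArg Fin.val h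
    simp only [tp, bp] at this
    omega
  by_cases hxb : x = bp k t
  · rw [if_pos hxb, hxb] at hx
    exact hne hx
  · rw [if_neg hxb] at hx
    exact hxb hx.symm

lemma noFPP2 {R : Finset (Fin (2 * k + t + 1) × Fin (2 * k + t + 1))} (ht : 2 ≤ t)
    (hR : IsOrderRel R) (hlo : mk _ (r1 k t) ⊆ R) (hsub : R ⊆ mk _ (r2 k t)) : ¬ FPP R := by
  intro h
  obtain ⟨x, hx⟩ := h (fun x => if x = bp k t then tp k t ht else sw k t ht x) (by
    intro x y hxy
    have h1 := hsub hxy
    rw [mem_mk] at h1
    rcases h1 with rfl | h1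
    · exact hR.refl _
    · have h2 : x ≠ bp k t := by
        rintro rfl
        exact absurd h1.1 (lt_irrefl _)
      rw [if_neg h2]
      apply hlo
      rw [mem_mk]
      right
      by_cases h3 : y = bp k t
      · rw [if_pos h3]
        refine ⟨sw_lt ht x, by simp only [tp]; omega, ?_⟩
        rw [sw_lev]
        have h4 := h1.2
        rw [h3] at h4
        have e1 : lev k (bp k t) = k := lev_top (by simp only [bp]; omega)
        have e2 : lev k (tp k t ht) = k := lev_top (by simp only [tp]; omega)
        rw [e2]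
        rw [e1] at h4
        exact h4
      · rw [if_neg h3]
        refine ⟨sw_lt ht x, sw_lt ht y, ?_⟩
        rw [sw_lev, sw_lev]
        exact h1.2)
  have hne : tp k t ht ≠ bp k t := by
    intro h
    have := congrArg Fin.val h
    simp only [tp, bp] at this
    omega
  by_cases hxb : x = bp k t
  · rw [if_pos hxb, hxb] at hx
    exact hne hx
  · rw [if_neg hxb] at hx
    apply sw_ne ht x _ hx
    have := x.2
    have h5 : (x : ℕ) ≠ 2 * k + t := fun h => hxb (Fin.ext h)
    omega

lemma noFPP3 {R : Finset (Fin (2 * k + t + 1) × Fin (2 * k + t + 1))} (ht : 2 ≤ t)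
    (hR : IsOrderRel R) (hlo : mk _ (r2 k t) ⊆ R) (hsub : R ⊆ mk _ (r3 k t)) : ¬ FPP R := by
  intro h
  have etp : ((tp k t ht : Fin _) : ℕ) = 2 * k := rfl
  have ebp : ((bp k t : Fin _) : ℕ) = 2 * k + t := rfl
  obtain ⟨x, hx⟩ := h (fun x => if x = bp k t then tp k t ht else
      if (x : ℕ) < 2 * k then sw k t ht x else bp k t) (by
    intro x y hxy
    have h1 := hsub hxy
    rw [mem_mk] at h1
    rcases h1 with rfl | h1
    · exact hR.refl _
    · have h2 : x ≠ bp k t := by
        rintro rfl
        exact absurd h1.1 (lt_irrefl _)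
      have hxs : (x : ℕ) < 2 * k → lev k x < k := by
        intro h; unfold lev; omega
      rw [if_neg h2]
      by_cases h3 : y = bp k t
      · rw [if_pos h3]
        have hxk : (x : ℕ) < 2 * k := by
          rcases h1.2 with h4 | h4
          · by_contra hcon
            rw [lev_top (by omega : 2 * k ≤ (x : ℕ))] at h4
            unfold lev at h4
            omega
          · rw [h3, ebp] at h4
            omega
        rw [if_pos hxk]
        apply hlo
        rw [mem_mk]
        right
        refine ⟨sw_lt ht x, ?_⟩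
        rw [sw_lev, etp, lev_top (le_refl _)]
        exact hxs hxk
      · rw [if_neg h3]
        by_cases hxk : (x : ℕ) < 2 * k
        · rw [if_pos hxk]
          apply hlo
          rw [mem_mk]
          right
          refine ⟨sw_lt ht x, ?_⟩
          rw [sw_lev]
          by_cases hyk : (y : ℕ) < 2 * k
          · rw [if_pos hyk, sw_lev]
            rcases h1.2 with h4 | h4
            · exact h4
            · omega
          · rw [if_neg hyk, ebp, lev_top (by omega : 2 * k ≤ 2 * k + t)]
            exact hxs hxk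
        · have hyk : ¬ (y : ℕ) < 2 * k := by
            rcases h1.2 with h4 | h4
            · have := lev_lt h4; omega
            · omega
          rw [if_neg hxk, if_neg hyk]
          exact hR.refl _)
  have hne : tp k t ht ≠ bp k t := by
    intro h
    have := congrArg Fin.val h
    rw [etp, ebp] at this
    omega
  by_cases hxb : x = bp k t
  · rw [if_pos hxb, hxb] at hx
    exact hne hx
  · rw [if_neg hxb] at hx
    by_cases hxk : (x : ℕ) < 2 * k
    · rw [if_pos hxk] at hx
      exact sw_ne ht x (by omega) hx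
    · rw [if_neg hxk] at hx
      exact hxb hx.symm

/-- the natural linear order -/
def Lin (n : ℕ) : Finset (Fin n × Fin n) := univ.filter (fun p => p.1 ≤ p.2)

lemma mem_Lin {n : ℕ} {x y : Fin n} : (x, y) ∈ Lin n ↔ x ≤ y := by simp [Lin]

lemma Lin_order (n : ℕ) : IsOrderRel (Lin n) :=
  ⟨fun _ => mem_Lin.mpr le_rfl, fun _ _ h h' => le_antisymm (mem_Lin.mp h) (mem_Lin.mp h'),
    fun _ _ _ h h' => mem_Lin.mpr ((mem_Lin.mp h).trans (mem_Lin.mp h'))⟩

lemma card_Lin (n : ℕ) : (Lin n).card = n + n.choose 2 := by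
  have h1 := card_sym (Lin_order n)
  have h2 : sym (Lin n) = univ := by
    apply eq_univ_of_forall
    rintro ⟨x, y⟩
    rw [mem_sym, mem_Lin, mem_Lin]
    exact le_total x y
  rw [h2, card_univ, Fintype.card_prod, Fintype.card_fin] at h1
  have h3 := two_choose' n
  omega

lemma sub3Lin (n : ℕ) : mk n (r3 k t) ⊆ Lin n := by
  rintro ⟨x, y⟩ h
  rw [mem_mk] at h
  rw [mem_Lin]
  rcases h with rfl | h
  · exact le_rfl
  · rcases h.2 with h' | h'
    · exact (lev_lt h').le
    · exact h'.2.2.le

lemma card3 : (Lin (2 * k + t + 1)).card ≤ (mk (2 * k + t + 1) (r3 k t)).card + (k + t) := by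
  classical
  have hsub : Lin (2 * k + t + 1) ⊆ mk (2 * k + t + 1) (r3 k t) ∪
      ((univ.image (fun j : Fin k => ((⟨2 * j, by omega⟩ : Fin (2 * k + t + 1)),
        (⟨2 * j + 1, by omega⟩ : Fin (2 * k + t + 1))))) ∪
       (univ.image (fun j : Fin t => ((⟨2 * k + j, by omega⟩ : Fin (2 * k + t + 1)), bp k t)))) := by
    rintro ⟨x, y⟩ h
    rw [mem_Lin] at h
    rw [mem_union, mem_union, mem_mk, mem_image, mem_image]
    by_cases hxy : x = y
    · exact Or.inl (Or.inl hxy)
    have hlt : (x : ℕ) < y := by
      have h1 : (x : ℕ) ≤ y := h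
      have h2 : (x : ℕ) ≠ y := fun h' => hxy (Fin.ext h')
      omega
    have hy := y.2
    by_cases hlev : lev k x < lev k y
    · exact Or.inl (Or.inr ⟨by omega, Or.inl hlev⟩)
    by_cases hx : 2 * k ≤ (x : ℕ)
    · by_cases hyb : (y : ℕ) < 2 * k + t
      · exact Or.inl (Or.inr ⟨by omega, Or.inr ⟨hyb, hx, hlt⟩⟩)
      · right; right
        refine ⟨⟨x - 2 * k, by omega⟩, mem_univ _, ?_⟩
        rw [Prod.mk.injEq]
        constructor
        · apply Fin.ext
          simp only
          omega
        · apply Fin.ext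
          simp only [bp]
          omega
    · right; left
      unfold lev at hlev
      refine ⟨⟨x / 2, by omega⟩, mem_univ _, ?_⟩
      rw [Prod.mk.injEq]
      constructor <;> apply Fin.ext <;> simp only <;> omega
  refine (card_le_card hsub).trans ?_
  refine (card_union_le _ _).trans ?_
  apply Nat.add_le_add_left
  refine (card_union_le _ _).trans ?_
  apply Nat.add_le_add
  · refine card_image_le.trans ?_
    rw [card_univ, Fintype.card_fin]
  · refine card_image_le.trans ?_
    rw [card_univ, Fintype.card_fin]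

lemma chain_between {n : ℕ} {R S : Finset (Fin n × Fin n)} (hR : IsOrderRel R)
    (hS : IsOrderRel S) (hRS : R ⊆ S) :
    Ch (fun U => R ⊆ U ∧ U ⊆ S) (S.card - R.card) R S :=
  exists_chain hS _ R hR hRS (by have := card_le_card hRS; omega)

lemma construction (ht : 2 ≤ t) : ∃ c, IsMaxChainOfOrders (2 * k + t + 1) c ∧
    numFPP (2 * k + t + 1) c ≤ k + t := by
  classical
  set n := 2 * k + t + 1 with hn
  let Q : Finset (Fin n × Fin n) → Prop := fun U => U.card ≤ (mk n (r3 k t)).card → ¬ FPP U
  have h1 : Ch Q ((mk n (r1 k t)).card - (discr n).card) (discr n) (mk n (r1 k t)) :=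
    (chain_between discr_order (order1 n) (discr_sub (order1 n))).mono
      (fun U hU h _ => noFPP1 ht hU h.2)
  have h2 : Ch Q ((mk n (r2 k t)).card - (mk n (r1 k t)).card) (mk n (r1 k t)) (mk n (r2 k t)) :=
    (chain_between (order1 n) (order2 n) (sub12 n)).mono
      (fun U hU h _ => noFPP2 ht hU h.1 h.2)
  have h3 : Ch Q ((mk n (r3 k t)).card - (mk n (r2 k t)).card) (mk n (r2 k t)) (mk n (r3 k t)) :=
    (chain_between (order2 n) (order3 n) (sub23 n)).mono
      (fun U hU h _ => noFPP3 ht hU h.1 h.2)
  have h4 : Ch Q ((Lin n).card - (mk n (r3 k t)).card) (mk n (r3 k t)) (Lin n) :=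
    (chain_between (order3 n) (Lin_order n) (sub3Lin n)).mono
      (fun U hU h hc => by
        have : mk n (r3 k t) = U := eq_of_subset_of_card_le h.1 hc
        rw [← this]
        exact noFPP3 ht (order3 n) (sub23 n) (Subset.refl _))
  have hall := ((h1.concat h2).concat h3).concat h4
  have c1 := card_le_card (discr_sub (order1 (k := k) (t := t) n))
  have c2 := card_le_card (sub12 (k := k) (t := t) n)
  have c3 := card_le_card (sub23 (k := k) (t := t) n)
  have c4 := card_le_card (sub3Lin (k := k) (t := t) n)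
  have c5 := card_Lin n
  have c6 := card_discr (n := n)
  have hlen : (mk n (r1 k t)).card - (discr n).card +
      ((mk n (r2 k t)).card - (mk n (r1 k t)).card) +
      ((mk n (r3 k t)).card - (mk n (r2 k t)).card) +
      ((Lin n).card - (mk n (r3 k t)).card) = n.choose 2 := by omega
  rw [hlen] at hall
  obtain ⟨c, hc0, hc1, hcP, hcs⟩ := hall
  have hmax : IsMaxChainOfOrders n (fun i => c i) := by
    refine ⟨fun i => (hcP i (by have := i.2; omega)).1, hc0, fun i => ?_⟩
    exact hcs i i.2
  refine ⟨fun i => c i, hmax, ?_⟩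
  have hcard := card_c hmax
  have hc3 := card3 (k := k) (t := t)
  rw [← hn] at hc3
  unfold numFPP
  calc (univ.filter (fun i : Fin (n.choose 2 + 1) => FPP (c i))).card
      ≤ (univ.image (fun j : Fin (k + t) => n.choose 2 - (j : ℕ))).card := by
        rw [← card_image_of_injective (univ.filter (fun i : Fin (n.choose 2 + 1) => FPP (c i)))
          Fin.val_injective]
        apply card_le_card
        intro i hi
        rw [mem_image] at hi ⊢
        obtain ⟨i', hi', rfl⟩ := hi
        have hF := (mem_filter.mp hi').2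
        have h5 : ¬ ((c i').card ≤ (mk n (r3 k t)).card) := by
          intro h6
          exact (hcP i' (by have := i'.2; omega)).2 h6 hF
        have h7 := hcard i'
        rw [h7] at h5
        have h8 := i'.2
        refine ⟨⟨n.choose 2 - i', by omega⟩, mem_univ _, ?_⟩
        simp only
        omega
    _ ≤ k + t := by
        refine card_image_le.trans ?_
        rw [card_univ, Fintype.card_fin]

end upper

/-- **Answer to Q1.** The smallest number of members with the FPP in a maximal chain of order
relations on `[n]` is `⌊n/2⌋ + 1` for all `n ≥ 1` except `n = 2`, where it is `1`. -/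
theorem result : ∀ n : ℕ, 1 ≤ n →
    IsLeast {m : ℕ | ∃ c, IsMaxChainOfOrders n c ∧ numFPP n c = m}
      (if n = 2 then 1 else n / 2 + 1) := by
  classical
  intro n hn
  -- lower bound
  have hlow : ∀ c, IsMaxChainOfOrders n c → (if n = 2 then 1 else n / 2 + 1) ≤ numFPP n c := by
    intro c hc
    have h1 := lower_odd hc
    split_ifs with h2
    · subst h2; exact h1
    · rcases Nat.even_or_odd n with h3 | h3
      · obtain ⟨a, ha⟩ := h3
        exact lower_even hc (by omega) (by omega)
      · obtain ⟨a, ha⟩ := h3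
        omega
  -- existence of a maximal chain with few members
  have hup : ∃ c, IsMaxChainOfOrders n c ∧ numFPP n c ≤ (if n = 2 then 1 else n / 2 + 1) := by
    by_cases h3 : 3 ≤ n
    · rw [if_neg (by omega)]
      rcases Nat.even_or_odd n with h4 | h4
      · obtain ⟨a, ha⟩ := h4
        obtain ⟨c, hc, hcn⟩ := construction (k := a - 2) (t := 3) (by norm_num)
        have e : 2 * (a - 2) + 3 + 1 = n := by omega
        subst e
        exact ⟨c, hc, hcn.trans (by omega)⟩
      · obtain ⟨a, ha⟩ := h4
        obtain ⟨c, hc, hcn⟩ := construction (k := a - 1) (t := 2) (by norm_num)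
        have e : 2 * (a - 1) + 2 + 1 = n := by omega
        subst e
        exact ⟨c, hc, hcn.trans (by omega)⟩
    · -- small cases
      have hch := chain_between discr_order (Lin_order n) (discr_sub (Lin_order n))
      have c5 := card_Lin n
      have c6 := card_discr (n := n)
      have e : (Lin n).card - (discr n).card = n.choose 2 := by omega
      rw [e] at hch
      obtain ⟨c, hc0, hc1, hcP, hcs⟩ := hch
      have hmax : IsMaxChainOfOrders n (fun i => c i) :=
        ⟨fun i => (hcP i (by have := i.2; omega)).1, hc0, fun i => hcs i i.2⟩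
      refine ⟨fun i => c i, hmax, ?_⟩
      have hn12 : n = 1 ∨ n = 2 := by omega
      rcases hn12 with rfl | rfl
      · unfold numFPP
        refine (card_filter_le _ _).trans ?_
        rw [card_univ, Fintype.card_fin]
        decide
      · -- the discrete order on two points lacks the FPP
        have hno : ¬ FPP (c 0) := by
          rw [hc0]
          intro h
          obtain ⟨x, hx⟩ := h (fun x => x + 1) (by
            intro x y hxy
            rw [mem_discr] at *
            simp only at *
            rw [hxy])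
          revert x
          decide
        unfold numFPP
        have hsub : univ.filter (fun i : Fin (Nat.choose 2 2 + 1) => FPP (c i)) ⊆
            univ.erase 0 := by
          intro i hi
          rw [mem_erase]
          refine ⟨?_, mem_univ _⟩
          rintro rfl
          exact hno (mem_filter.mp hi).2
        refine (card_le_card hsub).trans ?_
        rw [card_erase_of_mem (mem_univ _), card_univ, Fintype.card_fin]
        decide
  obtain ⟨c, hc, hcn⟩ := hup
  refine ⟨⟨c, hc, le_antisymm hcn (hlow c hc)⟩, ?_⟩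
  rintro m ⟨c', hc', rfl⟩
  exact hlow c' hc'

end Pool.Agent.Results.MP_eb30e1_co.MinFPP
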